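import Pool.Agent.W120.WM.Defs
import Pool.Agent.H370R2.Local
import Pool.Agent.H370R2.DirGood

/-! Piece WM-CNT: the number of nontrivial zeros of zeta in a window of length 2. -/

set_option autoImplicit false

open Filter Topology Set

namespace Pool.Agent.W515.WM

open Pool.Agent.W120.WM

/-- finitely many nontrivial zeros of bounded height -/
lemma low_finite (T : ℝ) : {s : ℂ | s ∈ NT ∧ |s.im| ≤ T}.Finite := by
  by_contra hinf
  have hinf : ({s : ℂ | s ∈ NT ∧ |s.im| ≤ T}).Infinite := hinf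
  have hcomp : IsCompact (Icc (0 : ℝ) 1 ×ℂ Icc (-T) T) := isCompact_Icc.reProdIm isCompact_Icc
  have hsub : {s : ℂ | s ∈ NT ∧ |s.im| ≤ T} ⊆ Icc (0 : ℝ) 1 ×ℂ Icc (-T) T := by
    rintro s ⟨⟨h1, h2, h3⟩, h4⟩
    exact ⟨⟨h2.le, h3.le⟩, abs_le.1 h4⟩
  obtain ⟨x, hx, hacc⟩ := hinf.exists_accPt_of_subset_isCompact hcomp hsub
  have hfreq : ∃ᶠ z in 𝓝[≠] x, riemannZeta z = 0 := by
    rw [accPt_iff_frequently_nhdsNE] at hacc
    exact hacc.mono fun z hz => hz.1.1
  rcases eq_or_ne x 1 with hx1 | hx1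
  · rw [hx1] at hfreq
    have h1 := riemannZeta_residue_one
    have h2 : ∀ᶠ s in 𝓝[≠] (1 : ℂ), (s - 1) * riemannZeta s ≠ 0 :=
      h1.eventually_ne one_ne_zero
    obtain ⟨z, hz1, hz2⟩ := (hfreq.and_eventually h2).exists
    exact hz2 (by rw [hz1, mul_zero])
  · have hU : IsPreconnected ({(1 : ℂ)}ᶜ : Set ℂ) :=
      (isConnected_compl_singleton_of_one_lt_rank (by simp) (1 : ℂ)).isPreconnected
    have han : AnalyticOnNhd ℂ riemannZeta ({(1 : ℂ)}ᶜ : Set ℂ) := by
      apply DifferentiableOn.analyticOnNhd _ isOpen_compl_singleton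
      intro s hs
      exact (differentiableAt_riemannZeta hs).differentiableWithinAt
    have hz := AnalyticOnNhd.eqOn_zero_of_preconnected_of_frequently_eq_zero
      (f := riemannZeta) (U := ({(1 : ℂ)}ᶜ : Set ℂ)) han hU (by simpa using hx1) hfreq
    have h2 : riemannZeta 2 = 0 := hz (by simp)
    exact riemannZeta_ne_zero_of_one_le_re (s := 2) (by norm_num) h2

/-- the bound in the upper half plane -/
lemma upper : ∃ C : ℝ, 0 < C ∧ ∀ (Z : Finset ℂ), (∀ ρ ∈ Z, ρ ∈ NT) → ∀ t : ℝ, 5 ≤ t →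
    ((Z.filter (fun ρ => |ρ.im - t| ≤ 1)).card : ℝ) ≤ C * Real.log (3 + t) := by
  classical
  obtain ⟨C, hC, hz⟩ := H370.zcount H370.good_zeta
  refine ⟨2 * C, by positivity, fun Z hZ t ht => ?_⟩
  have hf1 := H370.zset_finite H370.good_zeta (t - 1 - 1) (t - 1 + 1) (by linarith)
  have hf2 := H370.zset_finite H370.good_zeta (t + 1 - 1) (t + 1 + 1) (by linarith)
  have c1 := H370.Loc.card_le_NN H370.good_zeta (t - 1 - 1) (t - 1 + 1) (by linarith)
  have c2 := H370.Loc.card_le_NN H370.good_zeta (t + 1 - 1) (t + 1 + 1) (by linarith)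
  have h1 := hz (t - 1) (by linarith)
  have h2 := hz (t + 1) (by linarith)
  have hsub : Z.filter (fun ρ => |ρ.im - t| ≤ 1) ⊆ hf1.toFinset ∪ hf2.toFinset := by
    intro s hs
    rw [Finset.mem_filter] at hs
    obtain ⟨hs0, hs1⟩ := hs
    obtain ⟨a1, a2, a3⟩ := hZ s hs0
    rw [abs_le] at hs1
    rw [Finset.mem_union, Set.Finite.mem_toFinset, Set.Finite.mem_toFinset]
    rcases le_or_gt s.im t with h3 | h3
    · exact Or.inl ⟨a2, a3, by linarith [hs1.1], by linarith, a1⟩
    · exact Or.inr ⟨a2, a3, by linarith, by linarith [hs1.2], a1⟩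
  have h3 : (Z.filter (fun ρ => |ρ.im - t| ≤ 1)).card ≤ hf1.toFinset.card + hf2.toFinset.card :=
    (Finset.card_le_card hsub).trans (Finset.card_union_le _ _)
  have h4 : ((Z.filter (fun ρ => |ρ.im - t| ≤ 1)).card : ℝ) ≤
      (hf1.toFinset.card : ℝ) + (hf2.toFinset.card : ℝ) := by exact_mod_cast h3
  have c1' : (hf1.toFinset.card : ℝ) ≤ H370.NN riemannZeta (t - 1 - 1) (t - 1 + 1) := by
    exact_mod_cast c1
  have c2' : (hf2.toFinset.card : ℝ) ≤ H370.NN riemannZeta (t + 1 - 1) (t + 1 + 1) := by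
    exact_mod_cast c2
  have l1 : C * Real.log (t - 1) ≤ C * Real.log (3 + t) :=
    mul_le_mul_of_nonneg_left (Real.log_le_log (by linarith) (by linarith)) hC.le
  have l2 : C * Real.log (t + 1) ≤ C * Real.log (3 + t) :=
    mul_le_mul_of_nonneg_left (Real.log_le_log (by linarith) (by linarith)) hC.le
  linarith

lemma conj_mem {s : ℂ} (hs : s ∈ NT) : (starRingEnd ℂ) s ∈ NT := by
  obtain ⟨h1, h2, h3⟩ := hs
  refine ⟨?_, by simpa using h2, by simpa using h3⟩
  rw [riemannZeta_conj, h1, map_zero]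

theorem main : T_CNT := by
  classical
  obtain ⟨C, hC, hup⟩ := upper
  set N : ℕ := (low_finite 6).toFinset.card with hN
  refine ⟨C + N, by positivity, fun Z hZ t => ?_⟩
  have hlog : 1 ≤ Real.log (3 + |t|) := by
    rw [Real.le_log_iff_exp_le (by positivity)]
    linarith [Real.exp_one_lt_d9, abs_nonneg t]
  have hN0 : (0 : ℝ) ≤ N := Nat.cast_nonneg _
  rcases le_or_gt 5 t with h5 | h5
  · have h1 := hup Z hZ t h5
    rw [abs_of_nonneg (by linarith : (0 : ℝ) ≤ t)] at hlog ⊢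
    have h2 : 0 ≤ (N : ℝ) * Real.log (3 + t) := by positivity
    linarith
  rcases le_or_gt t (-5) with h6 | h6
  · have hZ' : ∀ ρ ∈ Z.image (starRingEnd ℂ), ρ ∈ NT := by
      intro ρ hρ
      rw [Finset.mem_image] at hρ
      obtain ⟨s, hs, rfl⟩ := hρ
      exact conj_mem (hZ s hs)
    have h1 := hup (Z.image (starRingEnd ℂ)) hZ' (-t) (by linarith)
    have h3 : (Z.filter (fun ρ => |ρ.im - t| ≤ 1)).card ≤
        ((Z.image (starRingEnd ℂ)).filter (fun ρ => |ρ.im - (-t)| ≤ 1)).card := by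
      apply Finset.card_le_card_of_injOn (starRingEnd ℂ)
      · intro s hs
        have hs' : s ∈ Z.filter (fun ρ => |ρ.im - t| ≤ 1) := hs
        rw [Finset.mem_filter] at hs'
        have : (starRingEnd ℂ) s ∈
            (Z.image (starRingEnd ℂ)).filter (fun ρ => |ρ.im - (-t)| ≤ 1) := by
          rw [Finset.mem_filter]
          refine ⟨Finset.mem_image_of_mem _ hs'.1, ?_⟩
          rw [Complex.conj_im, show -s.im - -t = -(s.im - t) by ring, abs_neg]
          exact hs'.2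
        exact this
      · exact (starRingEnd ℂ).injective.injOn
    have h4 : ((Z.filter (fun ρ => |ρ.im - t| ≤ 1)).card : ℝ) ≤
        (((Z.image (starRingEnd ℂ)).filter (fun ρ => |ρ.im - (-t)| ≤ 1)).card : ℝ) := by
      exact_mod_cast h3
    rw [abs_of_nonpos (by linarith : t ≤ 0)] at hlog ⊢
    have h2 : 0 ≤ (N : ℝ) * Real.log (3 + -t) := by positivity
    linarith
  · have h3 : (Z.filter (fun ρ => |ρ.im - t| ≤ 1)).card ≤ N := by
      rw [hN]
      apply Finset.card_le_card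
      intro s hs
      rw [Finset.mem_filter] at hs
      rw [Set.Finite.mem_toFinset]
      refine ⟨hZ s hs.1, ?_⟩
      have := abs_le.1 hs.2
      rw [abs_le]
      constructor <;> linarith [this.1, this.2]
    have h4 : ((Z.filter (fun ρ => |ρ.im - t| ≤ 1)).card : ℝ) ≤ N := by exact_mod_cast h3
    have h2 : (N : ℝ) ≤ N * Real.log (3 + |t|) := by nlinarith
    have h7 : 0 ≤ C * Real.log (3 + |t|) := by positivity
    linarith

end Pool.Agent.W515.WM
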